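import Pool.Agent.Helper292.ForceCH

/-!
# Martin's axiom, as a statement and as a sentence of the forcing language

The forcing language is the one of `Pool.Agent.Helper292.ForceCH`: a sentence is the set of the
conditions which force it, a name of a subset of a ground model set `X` is a map `X → Set P`.
-/

set_option autoImplicit false

namespace H318Z.MA

open Pool.Agent.Helper292.ForceCH

universe u v w

/-- The countable chain condition: each set of pairwise incompatible elements is countable. -/
def CCC (X : Type u) [Preorder X] : Prop :=
  ∀ A : Set X, (∀ a ∈ A, ∀ b ∈ A, a ≠ b → ¬ ∃ c, c ≤ a ∧ c ≤ b) → A.Countable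

/-- Martin's axiom for families of dense sets indexed by `K` (`MA_κ` for `κ = |K|`): in a nonempty
preordered set with the countable chain condition, each family of dense sets indexed by `K` is met
by a filter. -/
def MartinAxiom (K : Type v) : Prop :=
  ∀ (X : Type u) [Preorder X], Nonempty X → CCC X → ∀ D : K → Set X,
    (∀ k x, ∃ y, y ∈ D k ∧ y ≤ x) →
      ∃ G : Set X, (∃ x, x ∈ G) ∧ (∀ x y, x ∈ G ∧ x ≤ y → y ∈ G) ∧
        (∀ x y, x ∈ G ∧ y ∈ G → ∃ z, z ∈ G ∧ z ≤ x ∧ z ≤ y) ∧ ∀ k, ∃ x, x ∈ G ∧ x ∈ D k

/-- Martin's axiom: `MA_κ` for all `κ < 𝔠`. -/
def FullMA : Prop := ∀ K : Type u, Cardinal.mk K < Cardinal.continuum → MartinAxiom.{u, u} K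

section

variable {P : Type u} [Preorder P] {X : Type w}

/-- The relation on `X` named by `R` (`R x y` names the statement `x ≤ y`) is reflexive and
transitive. -/
def IsPreorderName (R : X → X → Set P) : Set P :=
  fand (fall fun x => meets (R x x))
    (fall fun x => fall fun y => fall fun z =>
      fimp (fand (meets (R x y)) (meets (R y z))) (meets (R x z)))

/-- The elements of the set named by `A` are pairwise incompatible. -/
def IsAntichainName (R : X → X → Set P) (A : X → Set P) : Set P :=
  fall fun a => fall fun b =>
    fimp (fand (meets (A a)) (fand (meets (A b)) (fground (a ≠ b))))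
      (fnot (fex fun c => fand (meets (R c a)) (meets (R c b))))

/-- The set named by `A` is countable: there is a relation `F ⊆ X × ℕ` which relates each element
of `A` to a number, and which relates no two elements of `X` to the same number. -/
def IsCountableName (A : X → Set P) : Set P :=
  fex fun F : X → ℕ → Set P =>
    fand (fall fun a => fimp (meets (A a)) (fex fun n => meets (F a n)))
      (fall fun a => fall fun b => fall fun n =>
        fimp (fand (meets (F a n)) (meets (F b n))) (fground (a = b)))

/-- The preorder named by `R` has the countable chain condition. -/
def IsCCCName (R : X → X → Set P) : Set P :=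
  fall fun A : X → Set P => fimp (IsAntichainName R A) (IsCountableName A)

/-- The set named by `D` is dense. -/
def IsDenseName (R : X → X → Set P) (D : X → Set P) : Set P :=
  fall fun x => fex fun y => fand (meets (D y)) (meets (R y x))

/-- The set named by `G` is a filter: nonempty, upward closed and downward directed. -/
def IsFilterName (R : X → X → Set P) (G : X → Set P) : Set P :=
  fand (fex fun x => meets (G x))
    (fand (fall fun x => fall fun y => fimp (fand (meets (G x)) (meets (R x y))) (meets (G y)))
      (fall fun x => fall fun y => fimp (fand (meets (G x)) (meets (G y)))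
        (fex fun z => fand (meets (G z)) (fand (meets (R z x)) (meets (R z y))))))

end

/-- The sentence `MartinAxiom K` of the forcing language. (Each preordered set of the extension is
isomorphic to one whose underlying set is an ordinal, hence a ground model set `X`.) -/
def MAHolds (P : Type u) [Preorder P] (K : Type v) : Set P :=
  fall fun X : Type u => fall fun R : X → X → Set P => fall fun D : K → X → Set P =>
    fimp
      (fand (fground (Nonempty X)) (fand (IsPreorderName R) (fand (IsCCCName R)
        (fall fun k => IsDenseName R (D k)))))
      (fex fun G : X → Set P => fand (IsFilterName R G)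
        (fall fun k => fex fun x => fand (meets (G x)) (meets (D k x))))

/-- The sentence `|K| < 𝔠`: no family of subsets of `ℕ` indexed by `K` contains every subset
of `ℕ`. -/
def BelowContinuum (P : Type u) [Preorder P] (K : Type v) : Set P :=
  fnot (fex fun E : K → ℕ → Set P => fall fun x : ℕ → Set P => fex fun a : K =>
    fall fun n : ℕ => fiff (meets (x n)) (meets (E a n)))

/-- The sentence `FullMA` of the forcing language. (Each set of the extension has the cardinality
of an ordinal, hence of a ground model set `K`.) -/
def FullMAHolds (P : Type u) [Preorder P] : Set P :=
  fall fun K : Type u => fimp (BelowContinuum P K) (MAHolds P K)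

/-- In the extension there is no function from `X` onto `Y`. -/
def NoOnto (P : Type u) [Preorder P] (X : Type v) (Y : Type w) : Set P :=
  fnot (fex fun R : X → Y → Set P => fand (IsFun R) (IsOnto R))

end H318Z.MA
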