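import Pool.Agent.H318Z.MA.Ccc

/-!
# Bookkeeping
-/

set_option autoImplicit false

namespace H318Z.MA

universe u

/-- coordinates: a node codes a family of countable sets of conditions -/
inductive Co (U L : Type u) : Type u
  | leaf : Co U L
  | node (ok : U → U → ℕ → Prop) (c : U → U → ℕ → ℕ → Co U L)
      (v : U → U → ℕ → ℕ → Option U) (x : L → ℕ → Co U L) : Co U L

variable {U L : Type u}

/-- `b` is a child of `a` -/
def Child (b : Co U L) : Co U L → Prop
  | .leaf => False
  | .node _ c _ x => (∃ u w n i, b = c u w n i) ∨ ∃ l i, b = x l i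

theorem child_wf : WellFounded (Child : Co U L → Co U L → Prop) := by
  refine ⟨fun a => ?_⟩
  induction a with
  | leaf => exact ⟨_, fun b hb => hb.elim⟩
  | node ok c v x ih1 ih2 =>
    refine ⟨_, fun b hb => ?_⟩
    rcases hb with ⟨u, w, n, i, rfl⟩ | ⟨l, i, rfl⟩
    · exact ih1 u w n i
    · exact ih2 l i

/-- the name coded by a coordinate -/
def Nm : Co U L → U → U → Set (Co U L → Option U)
  | .leaf => fun _ _ => ∅
  | .node ok c v _ => fun u w =>
      {t | ∃ n, ok u w n ∧ ∀ b z, t b = some z ↔ ∃ i, c u w n i = b ∧ v u w n i = some z}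

theorem exists_enum (t : Co U L → Option U) (ht : {b | t b ≠ none}.Finite) :
    ∃ c : ℕ → Co U L, ∀ b, t b ≠ none → ∃ i, c i = b := by
  obtain ⟨c, hc⟩ := (ht.countable.insert .leaf).exists_eq_range (Set.insert_nonempty _ _)
  refine ⟨c, fun b hb => ?_⟩
  have : b ∈ Set.range c := hc ▸ Or.inr hb
  exact this

theorem exists_book (U L : Type u) : ∃ (I : Type u) (_ : LinearOrder I) (_ : WellFoundedLT I)
    (N : I → U → U → Set (I → Option U)),
    ∀ (B : U → U → ℕ → Option (I → Option U)) (E : L → I → Option U),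
      (∀ x y n t, B x y n = some t → {b | t b ≠ none}.Finite) →
      (∀ l, {b | E l b ≠ none}.Finite) →
      ∃ a, (∀ x y t, t ∈ N a x y ↔ ∃ n, B x y n = some t) ∧
        (∀ x y, ∀ t ∈ N a x y, In (Set.Iio a) t) ∧ ∀ l, In (Set.Iio a) (E l) := by
  haveI : IsWellFounded (Co U L) Child := ⟨child_wf⟩
  letI lo : LinearOrder (Co U L) := IsWellFounded.wellOrderExtension Child
  have hlt : ∀ a b : Co U L, Child b a → b < a := fun _ _ h =>
    Prod.Lex.left _ _ (IsWellFounded.rank_lt_of_rel h)
  refine ⟨Co U L, lo, IsWellFounded.wellOrderExtension.isWellFounded_lt Child, Nm,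
    fun B E hB hE => ?_⟩
  have h1 : ∀ x y n, ∃ c : ℕ → Co U L, ∀ t, B x y n = some t → ∀ b, t b ≠ none → ∃ i, c i = b := by
    intro x y n
    rcases h : B x y n with _ | t
    · exact ⟨fun _ => .leaf, fun t ht => by cases ht⟩
    · obtain ⟨c, hc⟩ := exists_enum t (hB x y n t h)
      exact ⟨c, fun t' ht' => by cases ht'; exact hc⟩
  choose c hc using h1
  choose d hd using fun l => exists_enum (E l) (hE l)
  let a : Co U L := .node (fun x y n => B x y n ≠ none) c
    (fun x y n i => (B x y n).bind fun t => t (c x y n i)) d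
  have key : ∀ x y n t, B x y n = some t → ∀ b z, t b = some z ↔
      ∃ i, c x y n i = b ∧ ((B x y n).bind fun t => t (c x y n i)) = some z := by
    intro x y n t ht b z
    rw [ht]
    constructor
    · intro h
      obtain ⟨i, hi⟩ := hc x y n t ht b (by rw [h]; simp)
      exact ⟨i, hi, by simpa [hi] using h⟩
    · rintro ⟨i, hi, h⟩
      simpa [hi] using h
  have hN : ∀ x y t, t ∈ Nm a x y ↔ ∃ n, B x y n = some t := by
    intro x y t
    constructor
    · rintro ⟨n, hn, h⟩
      obtain ⟨t', ht'⟩ := Option.ne_none_iff_exists'.1 hn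
      refine ⟨n, ht'.trans (congrArg some ?_)⟩
      funext b
      exact Option.ext fun z => (key x y n t' ht' b z).trans (h b z).symm
    · rintro ⟨n, hn⟩
      exact ⟨n, by show B x y n ≠ none; rw [hn]; simp, key x y n t hn⟩
  refine ⟨a, hN, fun x y t ht b hb => ?_, fun l b hb => ?_⟩
  · obtain ⟨n, hn⟩ := (hN x y t).1 ht
    obtain ⟨i, hi⟩ := hc x y n t hn b hb
    exact hlt a b (Or.inl ⟨x, y, n, i, hi.symm⟩)
  · obtain ⟨i, hi⟩ := hd l b hb
    exact hlt a b (Or.inr ⟨l, i, hi.symm⟩)

end H318Z.MA
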