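import Pool.Agent.H318Z.MA.Main

/-!
# A ccc forcing notion which forces Martin's axiom and the negation of CH
-/

set_option autoImplicit false

namespace H318Z.MA

open Pool.Agent.Helper292.ForceCH Classical Cardinal

universe u v w

section general

variable {P : Type u} [Preorder P]

theorem MAHolds.reindex {K : Type v} {K' : Type w} (g : K' → K) (hg : Function.Surjective g)
    {p : P} (h : p ∈ MAHolds P K') : p ∈ MAHolds P K := by
  intro X R D
  refine mem_fimp.2 fun r hr ⟨hX, hpre, hccc, hden⟩ => ?_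
  obtain ⟨s, hs, hG⟩ := mem_fimp.1 (h X R fun k => D (g k)) r hr
    ⟨hX, hpre, hccc, fun k => hden (g k)⟩
  refine ⟨s, hs, mem_fex.2 fun t ht => ?_⟩
  obtain ⟨t', ht', G, h1, h2⟩ := mem_fex.1 hG t ht
  refine ⟨t', ht', G, h1, fun k => ?_⟩
  obtain ⟨k', rfl⟩ := hg k
  exact h2 k'

theorem meets_ground {h : Prop} {p : P} : p ∈ meets (fground h : Set P) ↔ h :=
  ⟨fun h' => by obtain ⟨_, _, _, h1, _⟩ := h' p le_rfl; exact h1, fun h' => meets_self h'⟩

/-- `MA(K)` forces `|K| < 𝔠` -/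
theorem below_of_MA {K : Type v} {p : P} (h : p ∈ MAHolds P K) : p ∈ BelowContinuum P K := by
  intro q hq hE
  obtain ⟨r, hr, E, hE⟩ := mem_fex.1 hE q le_rfl
  let X := ULift.{u} (List Bool)
  let R : X → X → Set P := fun x y => fground (y.down <+: x.down)
  let D : K → X → Set P := fun a x => {t | ∃ n b, x.down[n]? = some b ∧
    ((b = true ∧ t ∈ fnot (meets (E a n))) ∨ (b = false ∧ t ∈ meets (E a n)))}
  obtain ⟨s, hs, hG⟩ := mem_fimp.1 (h X R D) r (hr.trans hq) (by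
    refine ⟨⟨⟨[]⟩⟩, ⟨fun x => meets_ground.2 (List.prefix_refl _), fun x y z => ?_⟩,
      fun A => ?_, fun a x => ?_⟩
    · exact fimp_of fun t _ ht =>
        meets_ground.2 ((meets_ground.1 ht.2).trans (meets_ground.1 ht.1))
    · refine fimp_of fun t _ _ => mem_fex.2 fun t' _ => ⟨t', le_rfl,
        fun x n => fground (Encodable.encode x.down = n), fun x => ?_, fun x y n => ?_⟩
      · exact fimp_of fun t _ _ => mem_fex.2 fun t' _ => ⟨t', le_rfl, _, meets_ground.2 rfl⟩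
      · refine fimp_of fun t _ ht => ?_
        have h1 := meets_ground.1 ht.1
        have h2 := meets_ground.1 ht.2
        exact ULift.ext _ _ (Encodable.encode_injective (h1.trans h2.symm))
    · refine mem_fex.2 fun t _ => ?_
      by_cases h1 : ∃ t' ≤ t, t' ∈ meets (E a x.down.length)
      · obtain ⟨t', h2, h3⟩ := h1
        exact ⟨t', h2, ⟨x.down ++ [false]⟩, meets_self ⟨x.down.length, false, by simp,
          Or.inr ⟨rfl, h3⟩⟩, meets_ground.2 (List.prefix_append _ _)⟩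
      · exact ⟨t, le_rfl, ⟨x.down ++ [true]⟩, meets_self ⟨x.down.length, true, by simp,
          Or.inl ⟨rfl, fun t' h2 h3 => h1 ⟨t', h2, h3⟩⟩⟩, meets_ground.2 (List.prefix_append _ _)⟩)
  obtain ⟨s0, hs0, G, hG1, hG2⟩ := mem_fex.1 hG s le_rfl
  let x : ℕ → Set P := fun n => {t | ∃ l : X, l.down[n]? = some true ∧ t ∈ meets (G l)}
  obtain ⟨s1, hs1, a, ha⟩ := mem_fex.1 (hE x) s0 (hs0.trans hs)
  obtain ⟨s2, hs2, l, hl1, hl2⟩ := mem_fex.1 (hG2 a) s1 hs1
  obtain ⟨s3, hs3, t, ⟨n, b, hb, hb'⟩, hst⟩ := hl2 s2 le_rfl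
  rcases hb' with ⟨rfl, h1⟩ | ⟨rfl, h1⟩
  · obtain ⟨s4, hs4, h2⟩ := mem_fimp.1 (ha n).1 s3 (hs3.trans hs2)
      (meets_self (M := x n) ⟨l, hb, down_meets _ _ hl1 _ hs3⟩)
    exact h1 s4 (hs4.trans hst) h2
  · obtain ⟨s4, hs4, h2⟩ := mem_fimp.1 (ha n).2 s3 (hs3.trans hs2) (down_meets _ _ h1 _ hst)
    obtain ⟨s5, hs5, t', ⟨l', h3, h4⟩, h5⟩ := h2 s4 le_rfl
    obtain ⟨s6, hs6, h6⟩ := mem_fimp.1 (hG1.2.2 l l') s5
      (hs5.trans (hs4.trans (hs3.trans (hs2.trans hs1))))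
      ⟨down_meets _ _ hl1 _ (hs5.trans (hs4.trans hs3)), down_meets _ _ h4 _ h5⟩
    obtain ⟨s7, _, z, -, h7, h8⟩ := mem_fex.1 h6 s6 le_rfl
    obtain ⟨z1, hz1⟩ := meets_ground.1 h7
    obtain ⟨z2, hz2⟩ := meets_ground.1 h8
    have e1 : z.down[n]? = some false := by
      rw [← hz1, List.getElem?_append_left (List.getElem?_eq_some_iff.1 hb).1, hb]
    have e2 : z.down[n]? = some true := by
      rw [← hz2, List.getElem?_append_left (List.getElem?_eq_some_iff.1 h3).1, h3]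
    rw [e1] at e2
    cases e2

/-- a ccc forcing notion forces `𝔠 ≤ |P|^ℵ₀` -/
theorem not_below (hc : CCC P) {K : Type v} (g : K → ℕ → ℕ → Option P)
    (hg : Function.Surjective g) (p : P) : p ∈ fnot (BelowContinuum P K) := by
  intro q _ hq
  refine hq q le_rfl (mem_fex.2 fun r _ => ⟨r, le_rfl,
    fun k n => {t | ∃ m, g k n m = some t}, fun x => mem_fex.2 fun s _ => ?_⟩)
  choose B h1 h2 using fun n => nice hc (meets (x n))
  obtain ⟨k, rfl⟩ := hg B
  refine ⟨s, le_rfl, k, fun n => ⟨fimp_of fun t _ ht t' ht' => ?_, fimp_of fun t _ ht => ?_⟩⟩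
  · obtain ⟨m, b, hb, c, h3, h4⟩ := h2 n t' (down_meets _ _ ht _ ht')
    exact ⟨c, h3, b, ⟨m, hb⟩, h4⟩
  · refine meets_of_dense fun t' ht' => ?_
    obtain ⟨c, h3, b, ⟨m, hb⟩, h4⟩ := ht t' ht'
    exact ⟨c, h3, down_meets _ _ (h1 n m b hb) _ h4⟩

end general

/-! ### Bookkeeping for all the index sets `K o` at once -/

section book

variable {O : Type u} (K : O → Type u)

/-- the common underlying set -/
abbrev UU : Type u := Σ o, Tm (K o)
/-- indices of conditions -/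
abbrev JJ (o : O) : Type u := Tm (K o) × Tm (K o) × ℕ
/-- shapes of coordinates -/
abbrev Sh : Type u := Option (Σ o : O, (JJ K o → Prop) × (JJ K o × ℕ → Option (UU K)))
/-- children of coordinates -/
def Ch : Sh K → Type u
  | none => PEmpty
  | some s => (JJ K s.1 × ℕ) ⊕ (Option (K s.1 × Tm (K s.1) × ℕ) × ℕ)

/-- the retraction -/
noncomputable def rho (o : O) (x : UU K) : Tm (K o) := if h : x.1 = o then h ▸ x.2 else .base

theorem rho_surj (o : O) : Function.Surjective (rho K o) := fun t => ⟨⟨o, t⟩, by simp [rho]⟩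

/-- `b` is a child of `a` -/
def Child2 (b : WType (Ch K)) : WType (Ch K) → Prop
  | ⟨_, f⟩ => ∃ i, b = f i

theorem child2_wf : WellFounded (Child2 K) := by
  refine ⟨fun a => ?_⟩
  induction a with
  | mk s f ih =>
    refine ⟨_, fun b hb => ?_⟩
    obtain ⟨i, rfl⟩ := hb
    exact ih i

/-- the name coded by a coordinate -/
def Nm2 : WType (Ch K) → UU K → UU K → Set (WType (Ch K) → Option (UU K))
  | ⟨none, _⟩ => fun _ _ => ∅
  | ⟨some s, f⟩ => fun x y => {t | ∃ n, s.2.1 (rho K s.1 x, rho K s.1 y, n) ∧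
      ∀ b z, t b = some z ↔ ∃ i, f (Sum.inl ((rho K s.1 x, rho K s.1 y, n), i)) = b ∧
        s.2.2 ((rho K s.1 x, rho K s.1 y, n), i) = some z}

theorem exists_enum2 {I U : Type u} (a0 : I) (t : I → Option U) (ht : {b | t b ≠ none}.Finite) :
    ∃ c : ℕ → I, ∀ b, t b ≠ none → ∃ i, c i = b := by
  obtain ⟨c, hc⟩ := (ht.countable.insert a0).exists_eq_range (Set.insert_nonempty _ _)
  refine ⟨c, fun b hb => ?_⟩
  have : b ∈ Set.range c := hc ▸ Or.inr hb
  exact this

theorem exists_book2 : ∃ (_ : LinearOrder (WType (Ch K))) (_ : WellFoundedLT (WType (Ch K))),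
    ∀ (o : O) (B : Tm (K o) → Tm (K o) → ℕ → Option (WType (Ch K) → Option (UU K)))
      (E : Option (K o × Tm (K o) × ℕ) → WType (Ch K) → Option (UU K)),
      (∀ x y n t, B x y n = some t → {b | t b ≠ none}.Finite) →
      (∀ l, {b | E l b ≠ none}.Finite) →
      ∃ a, (∀ x y t, t ∈ Nm2 K a x y ↔ ∃ n, B (rho K o x) (rho K o y) n = some t) ∧
        (∀ x y, ∀ t ∈ Nm2 K a x y, In (Set.Iio a) t) ∧ ∀ l, In (Set.Iio a) (E l) := by
  haveI : IsWellFounded (WType (Ch K)) (Child2 K) := ⟨child2_wf K⟩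
  letI lo : LinearOrder (WType (Ch K)) := IsWellFounded.wellOrderExtension (Child2 K)
  have hlt : ∀ a b : WType (Ch K), Child2 K b a → b < a := fun _ _ h =>
    Prod.Lex.left _ _ (IsWellFounded.rank_lt_of_rel h)
  refine ⟨lo, IsWellFounded.wellOrderExtension.isWellFounded_lt (Child2 K), fun o B E hB hE => ?_⟩
  let a0 : WType (Ch K) := ⟨none, fun i => PEmpty.elim i⟩
  have h1 : ∀ x y n, ∃ c : ℕ → WType (Ch K), ∀ t, B x y n = some t →
      ∀ b, t b ≠ none → ∃ i, c i = b := by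
    intro x y n
    rcases h : B x y n with _ | t
    · exact ⟨fun _ => a0, fun t ht => by cases ht⟩
    · obtain ⟨c, hc⟩ := exists_enum2 a0 t (hB x y n t h)
      exact ⟨c, fun t' ht' => by cases ht'; exact hc⟩
  choose c hc using h1
  choose d hd using fun l => exists_enum2 a0 (E l) (hE l)
  let a : WType (Ch K) := ⟨some ⟨o, fun j => B j.1 j.2.1 j.2.2 ≠ none,
      fun j => (B j.1.1 j.1.2.1 j.1.2.2).bind fun t => t (c j.1.1 j.1.2.1 j.1.2.2 j.2)⟩,
    Sum.elim (fun j => c j.1.1 j.1.2.1 j.1.2.2 j.2) fun j => d j.1 j.2⟩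
  have key : ∀ x y n t, B x y n = some t → ∀ b z, t b = some z ↔
      ∃ i, c x y n i = b ∧ ((B x y n).bind fun t => t (c x y n i)) = some z := by
    intro x y n t ht b z
    rw [ht]
    constructor
    · intro h
      obtain ⟨i, hi⟩ := hc x y n t ht b (by rw [h]; simp)
      exact ⟨i, hi, by simpa [hi] using h⟩
    · rintro ⟨i, hi, h⟩
      simpa [hi] using h
  have hN : ∀ x y t, t ∈ Nm2 K a x y ↔ ∃ n, B (rho K o x) (rho K o y) n = some t := by
    intro x y t
    constructor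
    · rintro ⟨n, hn, h⟩
      obtain ⟨t', ht'⟩ := Option.ne_none_iff_exists'.1 hn
      refine ⟨n, ht'.trans (congrArg some ?_)⟩
      funext b
      exact Option.ext fun z => (key _ _ n t' ht' b z).trans (h b z).symm
    · rintro ⟨n, hn⟩
      exact ⟨n, by show B _ _ n ≠ none; rw [hn]; simp, key _ _ n t hn⟩
  refine ⟨a, hN, fun x y t ht b hb => ?_, fun l b hb => ?_⟩
  · obtain ⟨n, hn⟩ := (hN x y t).1 ht
    obtain ⟨i, hi⟩ := hc _ _ n t hn b hb
    exact hlt a b ⟨Sum.inl ((_, _, n), i), hi.symm⟩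
  · obtain ⟨i, hi⟩ := hd l b hb
    exact hlt a b ⟨Sum.inr (l, i), hi.symm⟩

end book

/-! ### Counting -/

/-- arities for the terms -/
def Ar (K : Type u) : Option (ℕ ⊕ K × ℕ) → Type u
  | none => PEmpty
  | some _ => ULift Bool

instance (K : Type u) (a : Option (ℕ ⊕ K × ℕ)) : Finite (Ar K a) := by
  cases a with
  | none => exact inferInstanceAs (Finite PEmpty)
  | some _ => exact inferInstanceAs (Finite (ULift Bool))

/-- decoding of terms -/
def dec (K : Type u) : WType (Ar K) → Tm K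
  | ⟨none, _⟩ => .base
  | ⟨some (.inl n), f⟩ => .cm (dec K (f ⟨true⟩)) (dec K (f ⟨false⟩)) n
  | ⟨some (.inr z), f⟩ => .dn z.1 (dec K (f ⟨true⟩)) z.2

theorem dec_surj (K : Type u) : Function.Surjective (dec K) := by
  intro t
  induction t with
  | base => exact ⟨⟨none, fun i => PEmpty.elim i⟩, by rw [dec]⟩
  | cm u v n h1 h2 =>
    obtain ⟨a, rfl⟩ := h1
    obtain ⟨b, rfl⟩ := h2
    exact ⟨⟨some (.inl n), fun i => if i.down then a else b⟩, by rw [dec]; simp⟩
  | dn k u n h1 =>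
    obtain ⟨a, rfl⟩ := h1
    exact ⟨⟨some (.inr (k, n)), fun _ => a⟩, by rw [dec]⟩

theorem mk_Tm_lt {κ : Cardinal.{u}} (h0 : ℵ₀ < κ) {K : Type u} (hK : #K < κ) : #(Tm K) < κ := by
  refine lt_of_le_of_lt ((mk_le_of_surjective (dec_surj K)).trans
    WType.cardinalMk_le_max_aleph0_of_finite) (max_lt ?_ h0)
  simp only [mk_option, mk_sum, mk_prod, mk_nat, lift_aleph0, lift_uzero]
  refine add_lt_of_lt h0.le (add_lt_of_lt h0.le h0 ?_) (one_lt_aleph0.trans h0)
  exact mul_lt_of_lt h0.le (by simpa using hK) h0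

theorem mk_W_le {κ : Cardinal.{u}} (h0 : ℵ₀ < κ) (hκ : ∀ μ < κ, κ ^ μ ≤ κ) {O : Type u}
    (K : O → Type u) (hO : #O ≤ κ) (hK : ∀ o, #(K o) < κ) :
    #(UU K) ≤ κ ∧ #(WType (Ch K)) ≤ κ := by
  have hm : κ * κ = κ := mul_eq_self h0.le
  have hsum : ∀ {A : Type u} (f : A → Cardinal.{u}), #A ≤ κ → (∀ a, f a ≤ κ) → sum f ≤ κ := by
    intro A f h1 h2
    refine (sum_le_sum f (fun _ => κ) h2).trans ?_
    rw [sum_const']
    exact (mul_le_mul_left h1 κ).trans hm.le
  have hT : ∀ o, #(Tm (K o)) < κ := fun o => mk_Tm_lt h0 (hK o)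
  have hU : #(UU K) ≤ κ := by
    rw [mk_sigma]
    exact hsum _ hO fun o => (hT o).le
  have hJ : ∀ o, #(JJ K o) < κ := by
    intro o
    simp only [mk_prod, mk_nat, lift_aleph0, lift_uzero, lift_id]
    exact mul_lt_of_lt h0.le (hT o) (mul_lt_of_lt h0.le (hT o) h0)
  have hJ' : ∀ o, #(JJ K o × ℕ) < κ := by
    intro o
    rw [mk_prod, mk_nat, lift_aleph0, lift_uzero]
    exact mul_lt_of_lt h0.le (hJ o) h0
  have h1 : κ + 1 ≤ κ := (add_one_eq h0.le).le
  refine ⟨hU, WType.cardinalMk_le_of_le (hsum _ ?_ fun s => hκ _ ?_)⟩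
  · rw [mk_option, mk_sigma]
    refine (add_le_add_left (hsum _ hO fun o => ?_) 1).trans h1
    rw [mk_prod, lift_id, lift_id]
    refine (mul_le_mul' ?_ ?_).trans hm.le
    · have : #(JJ K o → Prop) = 2 ^ #(JJ K o) := by simp
      rw [this]
      exact (power_le_power_right ((natCast_lt_aleph0 (n := 2)).trans h0).le).trans (hκ _ (hJ o))
    · rw [← power_def, mk_option]
      exact (power_le_power_right ((add_le_add_left hU 1).trans h1)).trans (hκ _ (hJ' o))
  · cases s with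
    | none => exact lt_of_eq_of_lt (mk_eq_zero PEmpty) (aleph0_pos.trans h0)
    | some s =>
      show #((JJ K s.1 × ℕ) ⊕ (Option (K s.1 × Tm (K s.1) × ℕ) × ℕ)) < κ
      rw [mk_sum, lift_id, lift_id]
      refine add_lt_of_lt h0.le (hJ' _) ?_
      simp only [mk_option, mk_prod, mk_nat, lift_aleph0, lift_uzero, lift_id]
      exact mul_lt_of_lt h0.le (add_lt_of_lt h0.le (mul_lt_of_lt h0.le (hK _)
        (mul_lt_of_lt h0.le (hT _) h0)) (one_lt_aleph0.trans h0)) h0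

theorem mk_PP_le {κ : Cardinal.{u}} (h0 : ℵ₀ < κ) (hκ : ∀ μ < κ, κ ^ μ ≤ κ) {I U : Type u}
    [LinearOrder I] [WellFoundedLT I] (a0 : I) (N : I → U → U → Set (I → Option U))
    (hI : #I ≤ κ) (hU : #U ≤ κ) : #(PP N) ≤ κ := by
  choose c hc using fun q : PP N => exists_enum2 a0 q.1 q.2.1
  have hinj : Function.Injective fun q : PP N =>
      (fun i : ULift.{u} ℕ => (c q i.down, q.1 (c q i.down))) := by
    intro q q' h
    have h' : ∀ i, c q i = c q' i ∧ q.1 (c q i) = q'.1 (c q' i) := fun i =>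
      Prod.ext_iff.1 (congrFun h ⟨i⟩)
    refine Subtype.ext (funext fun b => ?_)
    by_cases h1 : q.1 b = none
    · by_contra h2
      obtain ⟨i, rfl⟩ := hc q' b (fun h3 => h2 (h1.trans h3.symm))
      exact h2 ((h' i).1 ▸ (h' i).2)
    · obtain ⟨i, rfl⟩ := hc q b h1
      rw [(h' i).2, (h' i).1]
  refine (mk_le_of_injective hinj).trans ?_
  rw [← power_def, mk_prod, lift_id, lift_id, mk_option]
  refine (power_le_power_right ((mul_le_mul' hI ((add_le_add_left hU 1).trans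
    (add_one_eq h0.le).le)).trans (mul_eq_self h0.le).le)).trans (hκ _ ?_)
  simpa using h0

/-- If `κ ^ {<κ} = κ > ℵ₀`, then some ccc forcing notion forces `MA` and `𝔠 = κ`. -/
theorem exists_forcing_kappa (κ : Cardinal.{u}) (h0 : ℵ₀ < κ) (hκ : ∀ μ < κ, κ ^ μ ≤ κ) :
    ∃ (P : Type u) (_ : Preorder P), Nonempty P ∧ CCC P ∧ ∀ p : P, p ∈ FullMAHolds P ∧
      (∀ K : Type u, #K < κ → p ∈ MAHolds P K) ∧
      ∀ K : Type u, κ ≤ #K → p ∈ fnot (BelowContinuum P K) := by
  let O := κ.ord.ToType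
  let K : O → Type u := fun o => Set.Iio o
  have hK : ∀ o, #(K o) < κ := fun o => mk_Iio_toType_ord_lt o
  obtain ⟨_, _, hN⟩ := exists_book2 K
  obtain ⟨hU, hW⟩ := mk_W_le h0 hκ K (mk_ord_toType κ).le hK
  have hP := mk_PP_le h0 hκ ⟨none, fun i => PEmpty.elim i⟩ (Nm2 K) hW hU
  have hc : CCC (PP (Nm2 K)) := ICC.ccc fun Y f T hT => PP.ccc f T hT
  have h1 : ∀ (p : PP (Nm2 K)) (L : Type u), #L < κ → p ∈ MAHolds (PP (Nm2 K)) L := by
    intro p L hL
    have hlt : (#L).ord < Ordinal.type (α := O) (· < ·) := by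
      rw [Ordinal.type_toType]
      exact ord_lt_ord.2 hL
    obtain ⟨o, ho⟩ := Ordinal.typein_surj (α := O) (· < ·) hlt
    have he : #(K o) = #L := by
      rw [← card_ord #L, ← ho, Ordinal.card_typein]
      rfl
    obtain ⟨e⟩ := Cardinal.eq.1 he
    exact MAHolds.reindex e e.surjective
      (forces_of_book (Nm2 K) (rho K o) (rho_surj K o) (hN o) p)
  have h2 : ∀ (p : PP (Nm2 K)) (L : Type u), κ ≤ #L →
      p ∈ fnot (BelowContinuum (PP (Nm2 K)) L) := by
    intro p L hL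
    have hle : #(ℕ → ℕ → Option (PP (Nm2 K))) ≤ #L := by
      refine le_trans ?_ hL
      have : #(ℕ → ℕ → Option (PP (Nm2 K))) = ((#(PP (Nm2 K)) + 1) ^ ℵ₀) ^ ℵ₀ := by simp
      rw [this]
      exact (power_le_power_right ((power_le_power_right ((add_le_add_left hP 1).trans
        (add_one_eq h0.le).le)).trans (hκ _ h0))).trans (hκ _ h0)
    obtain ⟨j⟩ := hle
    exact not_below hc _ (Function.invFun_surjective j.injective) p
  refine ⟨PP (Nm2 K), inferInstance, inferInstance, hc, fun p => ⟨fun L => ?_, h1 p, h2 p⟩⟩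
  rcases lt_or_ge #L κ with h | h
  · exact fimp_of fun q _ _ => h1 q L h
  · exact fimp_of fun q _ hq => absurd hq (h2 q L h q le_rfl)

theorem pow_le_of_inaccessible {κ : Cardinal.{u}} (h : κ.IsInaccessible) :
    ∀ μ < κ, κ ^ μ ≤ κ := by
  intro μ hμ
  induction κ using Cardinal.inductionOn with | _ α
  induction μ using Cardinal.inductionOn with | _ β
  have h1 : #(β × α) ≤ #α := by
    rw [mk_prod, lift_id, lift_id]
    exact (mul_le_mul_left hμ.le _).trans (mul_eq_self h.aleph0_lt.le).le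
  obtain ⟨j⟩ := h1
  rw [power_def]
  conv_rhs => rw [← mk_subset_mk_lt_cof h.isStrongPrelimit]
  refine mk_le_of_injective (f := fun f : β → α => ⟨Set.range fun b => j (b, f b),
    (mk_range_le.trans_lt hμ).trans_le h.le_cof_ord⟩) fun f g hfg => funext fun b => ?_
  have h2 : (Set.range fun b => j (b, f b)) = Set.range fun b => j (b, g b) :=
    congrArg Subtype.val hfg
  obtain ⟨b', hb'⟩ : j (b, f b) ∈ Set.range fun b => j (b, g b) := h2 ▸ ⟨b, rfl⟩
  obtain ⟨h3, h4⟩ := Prod.ext_iff.1 (j.injective hb')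
  simp only at h3 h4
  rw [← h4, h3]

/-- from `exists_forcing_kappa`: `ω₁` is preserved, `MA` holds and `CH` fails -/
theorem exists_forcing_of_pow (κ : Cardinal.{u}) (h1 : ℵ₁ < κ) (hκ : ∀ μ < κ, κ ^ μ ≤ κ) :
    ∃ (P : Type u) (_ : Preorder P), Nonempty P ∧ ∀ p : P,
      p ∈ OmegaOnePreserved P ∧ p ∈ FullMAHolds P ∧ p ∈ fnot (CHHolds P) := by
  obtain ⟨P, i, h2, h3, h4⟩ := exists_forcing_kappa κ (aleph0_lt_aleph_one.trans h1) hκ
  refine ⟨P, i, h2, fun p => ⟨omegaOnePreserved_of_ccc h3 p, (h4 p).1, ?_⟩⟩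
  have h5 := (h4 p).2.1 (ULift.{u} Om) (by simpa using h1)
  exact below_of_MA (K := Om) (MAHolds.reindex ULift.down ULift.down_surjective h5)

/-- There is a forcing notion which preserves `ω₁` and forces `MA` and the negation of `CH`
(for the universe `Type 1`, in which `Cardinal.univ` is an inaccessible cardinal). -/
theorem exists_forcing_full : ∃ (P : Type 1) (_ : Preorder P), Nonempty P ∧ ∀ p : P,
    p ∈ OmegaOnePreserved P ∧ p ∈ FullMAHolds P ∧ p ∈ fnot (CHHolds P) := by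
  have h := IsInaccessible.univ.{0, 1}
  refine exists_forcing_of_pow univ.{0, 1} ?_ (pow_le_of_inaccessible h)
  rw [← succ_aleph0]
  exact h.isSuccLimit.succ_lt h.aleph0_lt

/-! ### Change of universe on the ZFC side -/

theorem MartinAxiom.reindex {K : Type v} {K' : Type w} (g : K' → K) (hg : Function.Surjective g)
    (h : MartinAxiom.{u, w} K') : MartinAxiom.{u, v} K := by
  intro X _ h1 h2 D hD
  obtain ⟨G, h3, h4, h5, h6⟩ := h X h1 h2 (fun k => D (g k)) fun k => hD (g k)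
  refine ⟨G, h3, h4, h5, fun k => ?_⟩
  obtain ⟨k', rfl⟩ := hg k
  exact h6 k'

theorem MartinAxiom.down {K : Type v} (h : MartinAxiom.{max u w, v} K) :
    MartinAxiom.{u, v} K := by
  intro X _ h1 h2 D hD
  obtain ⟨G, ⟨x0, h3⟩, h4, h5, h6⟩ := h (ULift.{w} X) ⟨⟨h1.some⟩⟩ (by
      intro A hA
      refine Set.countable_of_injective_of_countable_image (f := ULift.down)
        ULift.down_injective.injOn (h2 _ ?_)
      rintro _ ⟨a, ha, rfl⟩ _ ⟨b, hb, rfl⟩ hne ⟨c, h3, h4⟩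
      exact hA a ha b hb (fun h => hne (h ▸ rfl)) ⟨⟨c⟩, h3, h4⟩)
    (fun k => {x | x.down ∈ D k}) (fun k x => by
      obtain ⟨y, h3, h4⟩ := hD k x.down
      exact ⟨⟨y⟩, h3, h4⟩)
  refine ⟨{x | ULift.up x ∈ G}, ⟨x0.down, h3⟩, fun x y hxy => h4 ⟨x⟩ ⟨y⟩ hxy, fun x y hxy => ?_,
    fun k => ?_⟩
  · obtain ⟨z, h7⟩ := h5 ⟨x⟩ ⟨y⟩ hxy
    exact ⟨z.down, h7⟩
  · obtain ⟨z, h7⟩ := h6 k
    exact ⟨z.down, h7⟩

theorem FullMA.down (h : FullMA.{1}) : FullMA.{0} := by
  intro K hK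
  have h1 := h (ULift.{1} K) (by
    rw [mk_uLift, ← lift_continuum.{1, 0}]
    exact lift_lt.2 hK)
  exact MartinAxiom.down.{0, 0, 1} (MartinAxiom.reindex ULift.down ULift.down_surjective h1)

end H318Z.MA
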