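import Pool.Agent.H318Z.MA.Defs
import Pool.Agent.H318Z.MA.Book

/-!
# A ccc forcing notion which forces Martin's axiom for families of dense sets indexed by `K`
-/

set_option autoImplicit false

namespace H318Z.MA

open Pool.Agent.Helper292.ForceCH Classical

universe u v w

section general

variable {P : Type u} [Preorder P]

/-- the chain condition for indexed families -/
def ICC (P : Type u) [Preorder P] : Prop :=
  ∀ (Y : Type v) (f : Y → P) (T : Set Y), ¬ T.Countable →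
    ∃ y ∈ T, ∃ y' ∈ T, y ≠ y' ∧ ∃ s, s ≤ f y ∧ s ≤ f y'

theorem ICC.ccc (h : ICC.{u, u} P) : CCC P := by
  intro A hA
  by_contra hc
  obtain ⟨y, hy, y', hy', hne, hs⟩ := h P id A hc
  exact hA y hy y' hy' hne hs

theorem CCC.icc (h : CCC P) : ICC.{u, v} P := by
  intro Y f T hT
  by_contra hcon
  push Not at hcon
  have hinj : Set.InjOn f T := by
    intro y hy y' hy' he
    by_contra hne
    exact hcon y hy y' hy' hne (f y) le_rfl he.le
  refine hT (Set.countable_of_injective_of_countable_image hinj (h _ ?_))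
  rintro _ ⟨y, hy, rfl⟩ _ ⟨y', hy', rfl⟩ hne ⟨c, h1, h2⟩
  exact hcon y hy y' hy' (fun h => hne (h ▸ rfl)) c h1 h2

theorem meets_self {M : Set P} {p : P} (h : p ∈ M) : p ∈ meets M :=
  fun q hq => ⟨q, le_rfl, p, h, hq⟩

theorem nice (hc : CCC P) (W : Set P) : ∃ B : ℕ → Option P, (∀ n t, B n = some t → t ∈ W) ∧
    ∀ w ∈ W, ∃ n t, B n = some t ∧ ∃ s, s ≤ w ∧ s ≤ t := by
  obtain ⟨M, h1, h2, h3⟩ := exists_maximal (fun a b : P => ∃ s, s ≤ a ∧ s ≤ b)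
    (fun _ _ ⟨s, h1, h2⟩ => ⟨s, h2, h1⟩) W (fun a _ => ⟨a, le_rfl, le_rfl⟩)
  have hM : M.Countable := hc M h2
  obtain ⟨B, hB⟩ := ((hM.image some).insert none).exists_eq_range (Set.insert_nonempty _ _)
  refine ⟨B, fun n t ht => ?_, fun w hw => ?_⟩
  · have : some t ∈ insert none (some '' M) := hB ▸ ⟨n, ht⟩
    rcases this with h | ⟨m, hm, h⟩
    · cases h
    · cases h
      exact h1 hm
  · obtain ⟨m, hm, h⟩ := h3 w hw
    have : some m ∈ Set.range B := hB ▸ Or.inr ⟨m, hm, rfl⟩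
    obtain ⟨n, hn⟩ := this
    exact ⟨n, m, hn, h⟩

theorem popular_below (hc : CCC P) {Y : Type v} (F : Y → P) (T : Set Y) (hT : ¬ T.Countable) :
    ∃ y0 ∈ T, ∀ s ≤ F y0, ¬ {y ∈ T | ∃ t, t ≤ s ∧ t ≤ F y}.Countable := by
  obtain ⟨B, h1, h2⟩ := nice hc {s | {y ∈ T | ∃ t, t ≤ s ∧ t ≤ F y}.Countable}
  by_contra hcon
  push Not at hcon
  have hZ : (⋃ n, {y ∈ T | ∃ b, B n = some b ∧ ∃ t, t ≤ b ∧ t ≤ F y}).Countable := by
    refine Set.countable_iUnion fun n => ?_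
    rcases h : B n with _ | b
    · simp
    · refine (h1 n b h).mono ?_
      rintro y ⟨hy, b', hb', ht⟩
      cases hb'
      exact ⟨hy, ht⟩
  refine hT (hZ.mono fun y hy => ?_)
  obtain ⟨s, hs, hs'⟩ := hcon y hy
  obtain ⟨n, b, hb, t, ht1, ht2⟩ := h2 s hs'
  exact Set.mem_iUnion.2 ⟨n, hy, b, hb, t, ht2, ht1.trans hs⟩

/-- terms for the elements of a closed subset -/
inductive Tm (K : Type u) : Type u
  | base : Tm K
  | cm (u v : Tm K) (n : ℕ) : Tm K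
  | dn (k : K) (u : Tm K) (n : ℕ) : Tm K

theorem cover (hc : CCC P) {X : Type v} (hX : Nonempty X) (φ : X → Set P) (hφ : ∀ z, Down (φ z)) :
    ∃ w : ℕ → X, ∀ s z, s ∈ φ z → ∃ s' ≤ s, ∃ n, s' ∈ φ (w n) := by
  obtain ⟨B, h1, h2⟩ := nice hc {s | ∃ z, s ∈ φ z}
  have : ∀ n, ∃ z, ∀ t, B n = some t → t ∈ φ z := by
    intro n
    rcases h : B n with _ | b
    · exact ⟨hX.some, fun t ht => by cases ht⟩
    · obtain ⟨z, hz⟩ := h1 n b h
      exact ⟨z, fun t ht => by cases ht; exact hz⟩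
  choose w hw using this
  refine ⟨w, fun s z hs => ?_⟩
  obtain ⟨n, t, ht, s', h3, h4⟩ := h2 s ⟨z, hs⟩
  exact ⟨s', h3, n, hφ _ _ (hw n t ht) _ h4⟩

theorem closure (hc : CCC P) {X : Type v} {K : Type w} (hX : Nonempty X) (R : X → X → Set P)
    (D : K → X → Set P) : ∃ e : Tm K → X,
    (∀ s u v z, s ∈ meets (R z (e u)) → s ∈ meets (R z (e v)) →
      ∃ s' ≤ s, ∃ ζ, s' ∈ meets (R (e ζ) (e u)) ∧ s' ∈ meets (R (e ζ) (e v))) ∧
    (∀ s k u z, s ∈ meets (D k z) → s ∈ meets (R z (e u)) →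
      ∃ s' ≤ s, ∃ ζ, s' ∈ meets (D k (e ζ)) ∧ s' ∈ meets (R (e ζ) (e u))) := by
  choose w1 hw1 using fun x y => cover hc hX (fun z => fand (meets (R z x)) (meets (R z y)))
    (fun z => down_fand (down_meets _) (down_meets _))
  choose w2 hw2 using fun k x => cover hc hX (fun z => fand (meets (D k z)) (meets (R z x)))
    (fun z => down_fand (down_meets _) (down_meets _))
  let e : Tm K → X := fun u => Tm.rec hX.some (fun _ _ n x y => w1 x y n)
    (fun k _ n x => w2 k x n) u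
  refine ⟨e, fun s u v z h1 h2 => ?_, fun s k u z h1 h2 => ?_⟩
  · obtain ⟨s', hs', n, h⟩ := hw1 (e u) (e v) s z ⟨h1, h2⟩
    exact ⟨s', hs', .cm u v n, h⟩
  · obtain ⟨s', hs', n, h⟩ := hw2 k (e u) s z ⟨h1, h2⟩
    exact ⟨s', hs', .dn k u n, h⟩

/-- a ccc forcing notion does not collapse cardinals -/
theorem noOnto_of_ccc (hc : CCC P) {X : Type v} {Y : Type w}
    (h : ∀ f : X × ℕ → Y, ¬ Function.Surjective f)
    (p : P) : p ∈ NoOnto P X Y := by
  intro q _ hq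
  obtain ⟨r, _, R, hR, hR'⟩ := mem_fex.1 hq q le_rfl
  have hY : Nonempty X → Nonempty Y := by
    rintro ⟨x⟩
    obtain ⟨_, _, y, _⟩ := mem_fex.1 (hR.1 x) r le_rfl
    exact ⟨y⟩
  choose w hw using fun x => cover hc (hY ⟨x⟩) (fun y => fand (meets (R x y)) {s | s ≤ r})
    (fun y => down_fand (down_meets _) fun _ h1 _ h2 => h2.trans h1)
  refine h (fun z => w z.1 z.2) fun y => ?_
  obtain ⟨s, hs, x, hx⟩ := mem_fex.1 (hR' y) r le_rfl
  obtain ⟨s', hs', n, hn⟩ := hw x s y ⟨hx, hs⟩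
  obtain ⟨_, _, he⟩ := mem_fimp.1 (hR.2 x (w x n) y) s' hn.2 ⟨hn.1, down_meets _ _ hx _ hs'⟩
  exact ⟨(x, n), he⟩

theorem omegaOnePreserved_of_ccc (hc : CCC P) (p : P) : p ∈ OmegaOnePreserved P := by
  refine noOnto_of_ccc hc (X := ℕ) (Y := Om) (fun f hf => ?_) p
  obtain ⟨g, hg⟩ := exists_surjective_nat (ℕ × ℕ)
  obtain ⟨a, ha⟩ := exists_bound (f ∘ g)
  obtain ⟨n, hn⟩ := (hf.comp hg) a
  exact absurd (ha n) (by rw [hn]; exact lt_irrefl a)

end general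

theorem forces_of_book {K I U : Type u} [LinearOrder I] [WellFoundedLT I]
    (N : I → U → U → Set (I → Option U)) (ρ : U → Tm K) (hρ : Function.Surjective ρ)
    (hbook : ∀ (B : Tm K → Tm K → ℕ → Option (I → Option U))
      (E : Option (K × Tm K × ℕ) → I → Option U),
      (∀ x y n t, B x y n = some t → {b | t b ≠ none}.Finite) →
      (∀ l, {b | E l b ≠ none}.Finite) →
      ∃ a, (∀ x y t, t ∈ N a x y ↔ ∃ n, B (ρ x) (ρ y) n = some t) ∧
        (∀ x y, ∀ t ∈ N a x y, In (Set.Iio a) t) ∧ ∀ l, In (Set.Iio a) (E l))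
    (p : PP N) : p ∈ MAHolds (PP N) K := by
  have hc : ICC.{u, u} (PP N) := fun Y f T hT => PP.ccc f T hT
  intro X R D
  refine mem_fimp.2 fun r _ hr => ?_
  obtain ⟨hX, hpre, hccc, hden⟩ := hr
  have refl : ∀ s ≤ r, ∀ x, s ∈ meets (R x x) := fun s hs x => down_meets _ _ (hpre.1 x) _ hs
  have trans : ∀ s ≤ r, ∀ x y z, s ∈ meets (R x y) → s ∈ meets (R y z) → s ∈ meets (R x z) := by
    intro s hs x y z h1 h2
    refine meets_of_dense fun t ht => ?_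
    exact mem_fimp.1 (hpre.2 x y z) t (ht.trans hs) ⟨down_meets _ _ h1 _ ht, down_meets _ _ h2 _ ht⟩
  obtain ⟨e0, C10, C20⟩ := closure hc.ccc hX R D
  choose B0 hB10 hB20 using fun u w => nice hc.ccc (meets (R (e0 u) (e0 w)))
  choose BD0 hD10 hD20 using fun k u => nice hc.ccc (meets (D k (e0 u)))
  obtain ⟨a, ha1, ha2, ha3⟩ := hbook (fun u w n => (B0 u w n).map Subtype.val)
    (fun l => (l.elim r fun z => (BD0 z.1 z.2.1 z.2.2).getD r).1) (by
      intro x y n t ht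
      obtain ⟨t', -, rfl⟩ := Option.map_eq_some_iff.1 ht
      exact t'.2.1) (fun l => (Subtype.prop _ : V N _).1)
  let e : U → X := fun u => e0 (ρ u)
  let B : U → U → ℕ → Option (PP N) := fun u w => B0 (ρ u) (ρ w)
  let BD : K → U → ℕ → Option (PP N) := fun k u => BD0 k (ρ u)
  have hB1 : ∀ u w n t, B u w n = some t → t ∈ meets (R (e u) (e w)) := fun u w => hB10 _ _
  have hB2 : ∀ u w, ∀ s ∈ meets (R (e u) (e w)), ∃ n t, B u w n = some t ∧
      ∃ s', s' ≤ s ∧ s' ≤ t := fun u w => hB20 _ _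
  have hD1 : ∀ k u n t, BD k u n = some t → t ∈ meets (D k (e u)) := fun k u => hD10 _ _
  have hD2 : ∀ k u, ∀ s ∈ meets (D k (e u)), ∃ n t, BD k u n = some t ∧
      ∃ s', s' ≤ s ∧ s' ≤ t := fun k u => hD20 _ _
  have C1 : ∀ s u v z, s ∈ meets (R z (e u)) → s ∈ meets (R z (e v)) →
      ∃ s' ≤ s, ∃ ζ, s' ∈ meets (R (e ζ) (e u)) ∧ s' ∈ meets (R (e ζ) (e v)) := by
    intro s u v z h1 h2
    obtain ⟨s', h3, ζ, h4⟩ := C10 s (ρ u) (ρ v) z h1 h2
    obtain ⟨ζ, rfl⟩ := hρ ζ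
    exact ⟨s', h3, ζ, h4⟩
  have C2 : ∀ s k u z, s ∈ meets (D k z) → s ∈ meets (R z (e u)) →
      ∃ s' ≤ s, ∃ ζ, s' ∈ meets (D k (e ζ)) ∧ s' ∈ meets (R (e ζ) (e u)) := by
    intro s k u z h1 h2
    obtain ⟨s', h3, ζ, h4⟩ := C20 s k (ρ u) z h1 h2
    obtain ⟨ζ, rfl⟩ := hρ ζ
    exact ⟨s', h3, ζ, h4⟩
  obtain ⟨u0, -⟩ := hρ .base
  have hra : In (Set.Iio a) r.1 := ha3 none
  have hDa : ∀ k u n t, BD k u n = some t → In (Set.Iio a) t.1 := by
    intro k u n t ht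
    have := ha3 (some (k, ρ u, n))
    have ht' : BD0 k (ρ u) n = some t := ht
    simpa [ht'] using this
  have hNa : ∀ u w (t : PP N), t.1 ∈ N a u w ↔ ∃ n, B u w n = some t := by
    intro u w t
    rw [ha1]
    refine exists_congr fun n => ⟨fun h => ?_, fun h => by rw [show B0 (ρ u) (ρ w) n = some t from h]; rfl⟩
    obtain ⟨t', h1, h2⟩ := Option.map_eq_some_iff.1 h
    exact h1.trans (congrArg some (Subtype.ext h2))
  have up : ∀ (q : PP N) u w, Frc (La N a) (N a u w) (res (Set.Iio a) q.1) →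
      q ∈ meets (R (e u) (e w)) := by
    intro q u w h
    refine meets_of_dense fun s hs => ?_
    obtain ⟨s', h1, t, h2, h3⟩ := frc_up h s hs
    obtain ⟨n, hn⟩ := (hNa u w t).1 h2
    exact ⟨s', h1, down_meets _ _ (hB1 u w n t hn) _ h3⟩
  have down : ∀ (q : PP N) u w, q ∈ meets (R (e u) (e w)) →
      Frc (La N a) (N a u w) (res (Set.Iio a) q.1) := by
    intro q u w h
    refine frc_down (ha2 u w) fun s hs => ?_
    obtain ⟨n, t, h1, s', h2, h3⟩ := hB2 u w s (down_meets _ _ h _ hs)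
    exact ⟨s', h2, t, (hNa u w t).2 ⟨n, h1⟩, h3⟩
  have hGood : Good (La N a) (N a) r.1 := by
    refine ⟨fun x => ?_, fun s hs x y z h1 h2 => ?_, fun Y f g T hT hf => ?_⟩
    · have := down r x x (refl r le_rfl _)
      rwa [res_eq hra] at this
    · have e1 : res (Set.Iio a) (⟨s, hs.1.1⟩ : PP N).1 = s := res_eq hs.1.2
      have := down ⟨s, hs.1.1⟩ x z (trans _ hs.2.2 _ _ _ (up ⟨s, hs.1.1⟩ x y (by rwa [e1]))
        (up ⟨s, hs.1.1⟩ y z (by rwa [e1])))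
      rwa [e1] at this
    by_contra hcon
    let F : Y → PP N := fun y => if h : y ∈ T then ⟨f y, (hf y h).1.1⟩ else r
    have hF : ∀ y ∈ T, (F y).1 = f y := fun y hy => by simp [F, hy]
    have hFr : ∀ y ∈ T, F y ≤ r := fun y hy => by
      rw [PP.le_def, hF y hy]
      exact (hf y hy).2.2
    have key : ∀ y ∈ T, ∀ y' ∈ T, y ≠ y' → ∀ s : PP N, s ≤ F y → s ≤ F y' → ∀ z,
        s ∈ meets (R (e z) (e (g y))) → s ∈ meets (R (e z) (e (g y'))) → False := by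
      intro y hy y' hy' hne s h1 h2 z h3 h4
      refine hcon ⟨y, hy, y', hy', hne, res (Set.Iio a) s.1, z, ?_, ?_, down s _ _ h3, down s _ _ h4⟩
      · have := La_res s.2 (F y).2 h1 a
        rwa [hF y hy, res_eq (hf y hy).1.2] at this
      · have := La_res s.2 (F y').2 h2 a
        rwa [hF y' hy', res_eq (hf y' hy').1.2] at this
    let A : X → Set (PP N) := fun x => {t | ∃ y ∈ T, t = F y ∧ e (g y) = x}
    have hA : ∀ s ≤ r, s ∈ IsAntichainName R A := by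
      intro s _ x x'
      refine fimp_of fun t _ ht t0 ht0 h0 => ?_
      obtain ⟨h1, h2, hne⟩ := ht
      obtain ⟨t1, ht1, c, hc1, hc2⟩ := mem_fex.1 h0 t0 le_rfl
      obtain ⟨t2, ht2, _, ⟨y, hy, rfl, rfl⟩, hy2⟩ := h1 t1 (ht1.trans ht0)
      obtain ⟨t3, ht3, _, ⟨y', hy', rfl, rfl⟩, hy3⟩ := h2 t2 (ht2.trans (ht1.trans ht0))
      obtain ⟨t4, ht4, ζ, h5, h6⟩ := C1 t3 (g y) (g y') c (down_meets _ _ hc1 _ (ht3.trans ht2))
        (down_meets _ _ hc2 _ (ht3.trans ht2))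
      exact key y hy y' hy' (fun h => hne (h ▸ rfl)) t4 (ht4.trans (ht3.trans hy2))
        (ht4.trans hy3) ζ h5 h6
    obtain ⟨y0, hy0, hpop⟩ := popular_below hc.ccc F T hT
    obtain ⟨s0, hs0, hcount⟩ := mem_fimp.1 (hccc A) (F y0) (hFr y0 hy0) (hA _ (hFr y0 hy0))
    obtain ⟨s1, hs1, Fn, hF1, hF2⟩ := mem_fex.1 hcount s0 le_rfl
    have hT1 := hpop s1 (hs1.trans hs0)
    have hch : ∀ y, ∃ (t : PP N) (n : ℕ), y ∈ {y ∈ T | ∃ t, t ≤ s1 ∧ t ≤ F y} →
        t ≤ s1 ∧ t ≤ F y ∧ t ∈ meets (Fn (e (g y)) n) := by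
      intro y
      by_cases hy : y ∈ {y ∈ T | ∃ t, t ≤ s1 ∧ t ≤ F y}
      · obtain ⟨hy1, t0, h1, h2⟩ := hy
        obtain ⟨t1, h3, h4⟩ := mem_fimp.1 (hF1 (e (g y))) t0 h1
          (down_meets _ _ (meets_self (M := A (e (g y))) ⟨y, hy1, rfl, rfl⟩) _ h2)
        obtain ⟨t2, h5, n, h6⟩ := mem_fex.1 h4 t1 le_rfl
        exact ⟨t2, n, fun _ => ⟨h5.trans (h3.trans h1), h5.trans (h3.trans h2), h6⟩⟩
      · exact ⟨r, 0, fun h => absurd h hy⟩
    choose tt nn htt using hch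
    obtain ⟨n, hn⟩ : ∃ n, ¬ {y ∈ {y ∈ T | ∃ t, t ≤ s1 ∧ t ≤ F y} | nn y = n}.Countable := by
      by_contra h
      push Not at h
      exact hT1 ((Set.countable_iUnion h).mono fun y hy => Set.mem_iUnion.2 ⟨nn y, by exact ⟨hy, rfl⟩⟩)
    obtain ⟨y, hy, y', hy', hne, s, h1, h2⟩ := hc Y tt _ hn
    obtain ⟨a1, a2, a3⟩ := htt y hy.1
    obtain ⟨b1, b2, b3⟩ := htt y' hy'.1
    rw [hy.2] at a3
    rw [hy'.2] at b3
    obtain ⟨_, _, he⟩ := mem_fimp.1 (hF2 (e (g y)) (e (g y')) n) s (h1.trans a1)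
      ⟨down_meets _ _ a3 _ h1, down_meets _ _ b3 _ h2⟩
    have he' : e (g y) = e (g y') := he
    have hsr : s ≤ r := h1.trans (a2.trans (hFr y hy.1.1))
    exact key y hy.1.1 y' hy'.1.1 hne s (h1.trans a2) (h2.trans b2) (g y) (refl s hsr _)
      (he' ▸ refl s hsr _)
  have hrn : r.1 a = none := by
    by_contra h
    exact lt_irrefl a (hra a h)
  obtain ⟨q0, q1, q2, -, -, q5, -⟩ := amalg_at (s := r.1) r.2
    (by rw [res_eq hra]; exact ⟨⟨r.2, hra⟩, ⟨r.2, hra⟩, r.2.refl⟩) (some u0)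
    (Or.inr ⟨u0, rfl, hGood, fun y hy => by rw [hrn] at hy; cases hy⟩)
  let r' : PP N := ⟨q0, q1⟩
  have hr' : r' ≤ r := q2
  have hval : ∀ s ≤ r', ∃ u, s.1 a = some u := by
    intro s hs
    obtain ⟨u, hu, -⟩ := (le_iff N a s.1 q0).1 (hs a) _ q5
    exact ⟨u, hu⟩
  let G : X → Set (PP N) := fun x => {t | ∃ u, t.1 a = some u ∧ t ∈ meets (R (e u) x)}
  have Gdown : ∀ x, ∀ t ∈ G x, ∀ s ≤ t, s ≤ r → s ∈ G x := by
    rintro x t ⟨u, hu, h⟩ s hs hsr
    obtain ⟨u', hu', h'⟩ := (le_iff N a s.1 t.1).1 (hs a) u hu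
    exact ⟨u', hu', trans s hsr _ _ _ (up s u' u h') (down_meets _ _ h _ hs)⟩
  have Gmeets : ∀ x, ∀ s ≤ r, s ∈ meets (G x) → ∃ s' ≤ s, s' ∈ G x := by
    intro x s hs h
    obtain ⟨s', h1, t, h2, h3⟩ := h s le_rfl
    exact ⟨s', h1, Gdown x t h2 s' h3 (h1.trans hs)⟩
  refine ⟨r', hr', mem_fex.2 fun r'' hr'' => ⟨r'', le_rfl, G, ⟨?_, fun x y => ?_, fun x y => ?_⟩,
    fun k => ?_⟩⟩
  · refine mem_fex.2 fun t ht => ?_
    obtain ⟨u, hu⟩ := hval t (ht.trans hr'')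
    exact ⟨t, le_rfl, e u, meets_self ⟨u, hu, refl t (ht.trans (hr''.trans hr')) _⟩⟩
  · refine mem_fimp.2 fun t ht h => ?_
    have htr : t ≤ r := ht.trans (hr''.trans hr')
    obtain ⟨s, hs, u, hu, h'⟩ := Gmeets x t htr h.1
    exact ⟨s, hs, meets_self ⟨u, hu, trans s (hs.trans htr) _ _ _ h' (down_meets _ _ h.2 _ hs)⟩⟩
  · refine mem_fimp.2 fun t ht h => ?_
    have htr : t ≤ r := ht.trans (hr''.trans hr')
    obtain ⟨s1, hs1, h1⟩ := Gmeets x t htr h.1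
    obtain ⟨s2, hs2, u, hu, h2⟩ := Gmeets y s1 (hs1.trans htr) (down_meets _ _ h.2 _ hs1)
    have hs2r : s2 ≤ r := hs2.trans (hs1.trans htr)
    obtain ⟨u', hu', h3⟩ := Gdown x s1 h1 s2 hs2 hs2r
    have : u' = u := Option.some_injective _ (hu'.symm.trans hu)
    subst this
    refine ⟨s2, hs2.trans hs1, mem_fex.2 fun s3 hs3 => ⟨s3, le_rfl, e u', ?_, ?_, ?_⟩⟩
    · exact down_meets _ _ (meets_self (M := G (e u')) ⟨u', hu, refl s2 hs2r _⟩) _ hs3
    · exact down_meets _ _ h3 _ hs3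
    · exact down_meets _ _ h2 _ hs3
  · refine mem_fex.2 fun s hs => ?_
    have hsr : s ≤ r := hs.trans (hr''.trans hr')
    obtain ⟨x, hx⟩ := hval s (hs.trans hr'')
    obtain ⟨s1, hs1, z, h1, h2⟩ := mem_fex.1 (hden k (e x)) (s.rs a) (PP.rs_le hsr hra)
    obtain ⟨s2, hs2, ζ, h3, h4⟩ := C2 s1 k x z h1 h2
    obtain ⟨n, t, ht, s3, hs3, hs3t⟩ := hD2 k ζ s2 h3
    have hs3r : s3 ≤ r := hs3.trans (hs2.trans (hs1.trans (PP.rs_le hsr hra)))
    have hLa : La N a (res (Set.Iio a) s3.1) (res (Set.Iio a) s.1) := by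
      have := La_res s3.2 (s.rs a).2 (hs3.trans (hs2.trans hs1)) a
      rwa [res_eq (S := Set.Iio a) (q := (s.rs a).1) (in_res _ _)] at this
    have hG3 : Good (La N a) (N a) (res (Set.Iio a) s3.1) := by
      refine hGood.mono (La_trans a) ?_
      have := La_res s3.2 r.2 hs3r a
      rwa [res_eq hra] at this
    obtain ⟨q, v1, v2, v3, -, v5, -⟩ := amalg_at s.2 hLa (some ζ) (Or.inr ⟨ζ, rfl, hG3, fun y hy => by
      have : y = x := Option.some_injective _ (hy.symm.trans hx)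
      subst this
      exact down s3 _ _ (down_meets _ _ h4 _ hs3)⟩)
    let q' : PP N := ⟨q, v1⟩
    have hqs : q' ≤ s := v2
    have hq3 : q' ≤ s3.rs a := v3
    have hqt : q' ≤ t := le_trans hq3 (PP.rs_le hs3t (hDa k ζ n t ht))
    exact ⟨q', hqs, e ζ, meets_self (M := G (e ζ)) ⟨ζ, v5, refl _ (hqs.trans hsr) _⟩,
      down_meets _ _ (hD1 k ζ n t ht) _ hqt⟩

/-- For each set `K` there is a ccc forcing notion which forces Martin's axiom for families of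
dense sets indexed by `K`. -/
theorem exists_forcing_ccc (K : Type u) : ∃ (P : Type u) (_ : Preorder P), Nonempty P ∧ CCC P ∧
    ∀ p : P, p ∈ MAHolds P K := by
  obtain ⟨I, _, _, N, hN⟩ := exists_book (Tm K) (Option (K × Tm K × ℕ))
  exact ⟨PP N, inferInstance, inferInstance,
    ICC.ccc fun Y f T hT => PP.ccc f T hT, forces_of_book N id Function.surjective_id hN⟩

/-- There is a forcing notion which preserves `ω₁` and forces `MA_{ℵ₁}`. -/
theorem exists_forcing : ∃ (P : Type) (_ : Preorder P), Nonempty P ∧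
    ∀ p : P, p ∈ OmegaOnePreserved P ∧ p ∈ MAHolds P Om := by
  obtain ⟨P, i, h1, h2, h3⟩ := exists_forcing_ccc Om
  exact ⟨P, i, h1, fun p => ⟨omegaOnePreserved_of_ccc h2 p, h3 p⟩⟩

end H318Z.MA
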